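import Pool.Agent.R547.Fans.Main

set_option autoImplicit false

namespace Pool.Agent.Results.MP_09575c_lc.FanCone

open Pool.Agent.R547.Fans

/-- For every `k ≥ 5` the equality of Q1 fails: some submodular function on `{0,1}^k` which is
expressible by binary submodular functions is not, up to a constant, a nonnegative combination of
fans. (The function is `min (0, 3 - 2 x₁ - x₂ - x₃ - x₄ - x₅)`, one further variable is enough to
express it.) -/
theorem result (k : ℕ) (hk : 5 ≤ k) :
    ∃ f : B k → ℝ, Submodular f ∧ Expressible f ∧ ¬ InFanCone f :=
  ⟨fn hk, fn_submodular hk, fn_expressible hk, not_in_cone hk⟩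

end Pool.Agent.Results.MP_09575c_lc.FanCone
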