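import Mathlib

/-!
# For `k ≥ 6` not every binary-submodular-expressible function is in the cone of fans

The function is `x ↦ min(|x|, 3)`.
-/

namespace Pool.Agent.Results.MP_09575c_lc.FansFail

/-- The cube `{0,1}^k` with the coordinatewise order. -/
abbrev B (k : ℕ) : Type := Fin k → Bool

/-- Submodularity. -/
def Submodular {k : ℕ} (f : B k → ℝ) : Prop :=
  ∀ u v, f (u ⊓ v) + f (u ⊔ v) ≤ f u + f v

/-- `f` is expressible by binary submodular functions: for some `j` there are finitely many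
binary submodular functions `g i`, coefficients `α i ≥ 0`, pairs `z i` of variables among
`x_1, …, x_n, y_1, …, y_j`, and a constant `κ`, such that `f x` is the minimum over `y` of
`∑ i, α i * g i (z i) + κ`. -/
def Expressible {n : ℕ} (f : B n → ℝ) : Prop :=
  ∃ (j m : ℕ) (g : Fin m → B 2 → ℝ) (α : Fin m → ℝ) (z : Fin m → Fin 2 → Fin n ⊕ Fin j) (κ : ℝ),
    (∀ i, Submodular (g i)) ∧ (∀ i, 0 ≤ α i) ∧
    ∀ x : B n, IsLeast (Set.range fun y : B j =>
      ∑ i, α i * g i (fun s => Sum.elim x y (z i s)) + κ) (f x)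

open Classical in
/-- The upper fan of `A`. -/
noncomputable def upperFan {k : ℕ} (A : Finset (B k)) (x : B k) : ℤ :=
  if A.sup id ≤ x then -2 else if ∃ a ∈ A, a ≤ x then -1 else 0

open Classical in
/-- The lower fan of `A`. -/
noncomputable def lowerFan {k : ℕ} (A : Finset (B k)) (x : B k) : ℤ :=
  if x ≤ A.inf id then -2 else if ∃ a ∈ A, x ≤ a then -1 else 0

/-- The fans on the cube: upper fans of sets `A` of pairwise incomparable elements any two of
which have the join `⋁ A`, and lower fans of sets `A` of pairwise incomparable elements any two of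
which have the meet `⋀ A`. -/
def IsFan {k : ℕ} (φ : B k → ℤ) : Prop :=
  (∃ A : Finset (B k), (∀ a ∈ A, ∀ b ∈ A, a ≠ b → ¬ a ≤ b ∧ a ⊔ b = A.sup id) ∧
    φ = upperFan A) ∨
  (∃ A : Finset (B k), (∀ a ∈ A, ∀ b ∈ A, a ≠ b → ¬ a ≤ b ∧ a ⊓ b = A.inf id) ∧
    φ = lowerFan A)

/-- Membership in the cone of fans, up to adding a real constant. -/
def InConeFans {k : ℕ} (f : B k → ℝ) : Prop :=
  ∃ (m : ℕ) (φ : Fin m → B k → ℤ) (α : Fin m → ℝ) (κ : ℝ),
    (∀ i, IsFan (φ i)) ∧ (∀ i, 0 ≤ α i) ∧ ∀ x, f x = ∑ i, α i * (φ i x : ℝ) + κ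

/-! ### Fans are submodular, with values in `{-2,-1,0}` -/

theorem upper_antitone {k : ℕ} (A : Finset (B k)) (x y : B k) (h : x ≤ y) :
    upperFan A y ≤ upperFan A x := by
  unfold upperFan
  by_cases h1 : A.sup id ≤ x
  · rw [if_pos h1, if_pos (h1.trans h)]
  · rw [if_neg h1]
    by_cases h2 : ∃ a ∈ A, a ≤ x
    · obtain ⟨a, ha, hax⟩ := h2
      rw [if_pos (⟨a, ha, hax⟩ : ∃ a ∈ A, a ≤ x),
        if_pos (⟨a, ha, hax.trans h⟩ : ∃ a ∈ A, a ≤ y)]
      split_ifs <;> norm_num
    · rw [if_neg h2]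
      split_ifs <;> norm_num

theorem upper_range {k : ℕ} (A : Finset (B k)) (x : B k) :
    -2 ≤ upperFan A x ∧ upperFan A x ≤ 0 := by
  unfold upperFan
  split_ifs <;> norm_num

theorem lower_range {k : ℕ} (A : Finset (B k)) (x : B k) :
    -2 ≤ lowerFan A x ∧ lowerFan A x ≤ 0 := by
  unfold lowerFan
  split_ifs <;> norm_num

theorem lower_monotone {k : ℕ} (A : Finset (B k)) (x y : B k) (h : x ≤ y) :
    lowerFan A x ≤ lowerFan A y := by
  unfold lowerFan
  by_cases h1 : y ≤ A.inf id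
  · rw [if_pos h1, if_pos (h.trans h1)]
  · rw [if_neg h1]
    by_cases h2 : ∃ a ∈ A, y ≤ a
    · obtain ⟨a, ha, hax⟩ := h2
      rw [if_pos (⟨a, ha, hax⟩ : ∃ a ∈ A, y ≤ a), if_pos (⟨a, ha, h.trans hax⟩ : ∃ a ∈ A, x ≤ a)]
      split_ifs <;> norm_num
    · rw [if_neg h2]
      split_ifs <;> norm_num

theorem upper_cases {k : ℕ} (A : Finset (B k)) (x : B k) :
    (A.sup id ≤ x ∧ upperFan A x = -2) ∨ ((∃ a ∈ A, a ≤ x) ∧ upperFan A x = -1) ∨
      upperFan A x = 0 := by
  unfold upperFan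
  by_cases h1 : A.sup id ≤ x
  · rw [if_pos h1]
    exact Or.inl ⟨h1, rfl⟩
  · rw [if_neg h1]
    by_cases h2 : ∃ a ∈ A, a ≤ x
    · rw [if_pos h2]
      exact Or.inr (Or.inl ⟨h2, rfl⟩)
    · rw [if_neg h2]
      exact Or.inr (Or.inr rfl)

theorem lower_cases {k : ℕ} (A : Finset (B k)) (x : B k) :
    (x ≤ A.inf id ∧ lowerFan A x = -2) ∨ ((∃ a ∈ A, x ≤ a) ∧ lowerFan A x = -1) ∨
      lowerFan A x = 0 := by
  unfold lowerFan
  by_cases h1 : x ≤ A.inf id
  · rw [if_pos h1]
    exact Or.inl ⟨h1, rfl⟩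
  · rw [if_neg h1]
    by_cases h2 : ∃ a ∈ A, x ≤ a
    · rw [if_pos h2]
      exact Or.inr (Or.inl ⟨h2, rfl⟩)
    · rw [if_neg h2]
      exact Or.inr (Or.inr rfl)

theorem upper_le_neg_two {k : ℕ} (A : Finset (B k)) (x : B k) (h : A.sup id ≤ x) :
    upperFan A x = -2 := by
  unfold upperFan
  rw [if_pos h]

theorem upper_le_neg_one {k : ℕ} (A : Finset (B k)) (x a : B k) (ha : a ∈ A) (h : a ≤ x) :
    upperFan A x ≤ -1 := by
  unfold upperFan
  rw [if_pos (⟨a, ha, h⟩ : ∃ a ∈ A, a ≤ x)]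
  split_ifs <;> norm_num

theorem lower_le_neg_two {k : ℕ} (A : Finset (B k)) (x : B k) (h : x ≤ A.inf id) :
    lowerFan A x = -2 := by
  unfold lowerFan
  rw [if_pos h]

theorem lower_le_neg_one {k : ℕ} (A : Finset (B k)) (x a : B k) (ha : a ∈ A) (h : x ≤ a) :
    lowerFan A x ≤ -1 := by
  unfold lowerFan
  rw [if_pos (⟨a, ha, h⟩ : ∃ a ∈ A, x ≤ a)]
  split_ifs <;> norm_num

theorem upper_submod {k : ℕ} (A : Finset (B k))
    (hA : ∀ a ∈ A, ∀ b ∈ A, a ≠ b → ¬ a ≤ b ∧ a ⊔ b = A.sup id) (u v : B k) :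
    upperFan A (u ⊓ v) + upperFan A (u ⊔ v) ≤ upperFan A u + upperFan A v := by
  classical
  have hu := upper_antitone A u (u ⊔ v) le_sup_left
  have hv := upper_antitone A v (u ⊔ v) le_sup_right
  have hu' := upper_antitone A (u ⊓ v) u inf_le_left
  have hv' := upper_antitone A (u ⊓ v) v inf_le_right
  have r1 := upper_range A u
  have r2 := upper_range A v
  have r3 := upper_range A (u ⊓ v)
  have r4 := upper_range A (u ⊔ v)
  rcases upper_cases A u with ⟨h1, e1⟩ | ⟨⟨a, ha, hau⟩, e1⟩ | e1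
  · rcases upper_cases A v with ⟨h2, e2⟩ | ⟨⟨b, hb, hbv⟩, e2⟩ | e2
    · have := upper_le_neg_two A (u ⊓ v) (le_inf h1 h2)
      omega
    · have h3 : b ≤ u ⊓ v := le_inf ((Finset.le_sup (f := id) hb).trans h1) hbv
      have := upper_le_neg_one A (u ⊓ v) b hb h3
      omega
    · omega
  · rcases upper_cases A v with ⟨h2, e2⟩ | ⟨⟨b, hb, hbv⟩, e2⟩ | e2
    · have h3 : a ≤ u ⊓ v := le_inf hau ((Finset.le_sup (f := id) ha).trans h2)
      have := upper_le_neg_one A (u ⊓ v) a ha h3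
      omega
    · by_cases hab : a = b
      · subst hab
        have := upper_le_neg_one A (u ⊓ v) a ha (le_inf hau hbv)
        omega
      · have h3 : A.sup id ≤ u ⊔ v := by
          rw [← (hA a ha b hb hab).2]
          exact sup_le_sup hau hbv
        have := upper_le_neg_two A (u ⊔ v) h3
        omega
    · omega
  · omega

theorem lower_submod {k : ℕ} (A : Finset (B k))
    (hA : ∀ a ∈ A, ∀ b ∈ A, a ≠ b → ¬ a ≤ b ∧ a ⊓ b = A.inf id) (u v : B k) :
    lowerFan A (u ⊓ v) + lowerFan A (u ⊔ v) ≤ lowerFan A u + lowerFan A v := by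
  classical
  have hu := lower_monotone A u (u ⊔ v) le_sup_left
  have hv := lower_monotone A v (u ⊔ v) le_sup_right
  have hu' := lower_monotone A (u ⊓ v) u inf_le_left
  have hv' := lower_monotone A (u ⊓ v) v inf_le_right
  have r1 := lower_range A u
  have r2 := lower_range A v
  have r3 := lower_range A (u ⊓ v)
  have r4 := lower_range A (u ⊔ v)
  rcases lower_cases A u with ⟨h1, e1⟩ | ⟨⟨a, ha, hau⟩, e1⟩ | e1
  · rcases lower_cases A v with ⟨h2, e2⟩ | ⟨⟨b, hb, hbv⟩, e2⟩ | e2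
    · have := lower_le_neg_two A (u ⊔ v) (sup_le h1 h2)
      omega
    · have h3 : u ⊔ v ≤ b := sup_le (h1.trans (Finset.inf_le (f := id) hb)) hbv
      have := lower_le_neg_one A (u ⊔ v) b hb h3
      omega
    · omega
  · rcases lower_cases A v with ⟨h2, e2⟩ | ⟨⟨b, hb, hbv⟩, e2⟩ | e2
    · have h3 : u ⊔ v ≤ a := sup_le hau (h2.trans (Finset.inf_le (f := id) ha))
      have := lower_le_neg_one A (u ⊔ v) a ha h3
      omega
    · by_cases hab : a = b
      · subst hab
        have := lower_le_neg_one A (u ⊔ v) a ha (sup_le hau hbv)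
        omega
      · have h3 : u ⊓ v ≤ A.inf id := by
          rw [← (hA a ha b hb hab).2]
          exact inf_le_inf hau hbv
        have := lower_le_neg_two A (u ⊓ v) h3
        omega
    · omega
  · omega

/-! ### The function `min(|x|, 3)` -/

/-- The number of ones. -/
def wt {k : ℕ} (x : B k) : ℕ := (Finset.univ.filter fun i => x i = true).card

/-- The function `min(|x|, 3)`. -/
noncomputable def F {k : ℕ} (x : B k) : ℝ := ((min (wt x) 3 : ℕ) : ℝ)

theorem wt_add {k : ℕ} (u v : B k) : wt (u ⊓ v) + wt (u ⊔ v) = wt u + wt v := by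
  classical
  unfold wt
  have h1 : (Finset.univ.filter fun i => (u ⊓ v) i = true) =
      (Finset.univ.filter fun i => u i = true) ∩ (Finset.univ.filter fun i => v i = true) := by
    ext i
    simp [Pi.inf_apply]
  have h2 : (Finset.univ.filter fun i => (u ⊔ v) i = true) =
      (Finset.univ.filter fun i => u i = true) ∪ (Finset.univ.filter fun i => v i = true) := by
    ext i
    simp [Pi.sup_apply]
  rw [h1, h2, Finset.card_inter_add_card_union]

theorem wt_mono {k : ℕ} (u v : B k) (h : u ≤ v) : wt u ≤ wt v := by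
  apply Finset.card_le_card
  intro i hi
  simp only [Finset.mem_filter, Finset.mem_univ, true_and] at hi ⊢
  have := h i
  rw [hi] at this
  exact top_le_iff.1 this

theorem F_submod {k : ℕ} : Submodular (F (k := k)) := by
  intro u v
  have h1 := wt_add u v
  have h2 := wt_mono (u ⊓ v) u inf_le_left
  have h3 := wt_mono (u ⊓ v) v inf_le_right
  have h4 := wt_mono u (u ⊔ v) le_sup_left
  have h5 := wt_mono v (u ⊔ v) le_sup_right
  have : min (wt (u ⊓ v)) 3 + min (wt (u ⊔ v)) 3 ≤ min (wt u) 3 + min (wt v) 3 := by omega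
  unfold F
  exact_mod_cast this

theorem wt_sum {k : ℕ} (x : B k) : (wt x : ℝ) = ∑ i, if x i = true then (1 : ℝ) else 0 := by
  unfold wt
  rw [Finset.sum_ite]
  simp

theorem F_expressible {k : ℕ} (hk : 6 ≤ k) : Expressible (F (k := k)) := by
  classical
  let g₀ : B 2 → ℝ := fun b => if b 0 = true ∧ b 1 = false then 1 else 0
  let g₁ : B 2 → ℝ := fun b => if b 0 = true then 1 else 0
  have key₀ : ∀ a b c d : Bool,
      (if (a ⊓ c) = true ∧ (b ⊓ d) = false then (1 : ℝ) else 0) +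
        (if (a ⊔ c) = true ∧ (b ⊔ d) = false then (1 : ℝ) else 0) ≤
      (if a = true ∧ b = false then (1 : ℝ) else 0) +
        (if c = true ∧ d = false then (1 : ℝ) else 0) := by
    intro a b c d
    cases a <;> cases b <;> cases c <;> cases d <;> norm_num
  have key₁ : ∀ a c : Bool,
      (if (a ⊓ c) = true then (1 : ℝ) else 0) + (if (a ⊔ c) = true then (1 : ℝ) else 0) ≤
      (if a = true then (1 : ℝ) else 0) + (if c = true then (1 : ℝ) else 0) := by
    intro a c
    cases a <;> cases c <;> norm_num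
  have hg₀ : Submodular g₀ := fun u v => key₀ (u 0) (u 1) (v 0) (v 1)
  have hg₁ : Submodular g₁ := fun u v => key₁ (u 0) (v 0)
  refine ⟨1, k + 1, Fin.cons g₁ fun _ => g₀, Fin.cons 3 fun _ => 1,
    Fin.cons ![Sum.inr 0, Sum.inl ⟨0, by omega⟩] fun i => ![Sum.inl i, Sum.inr 0], 0, ?_, ?_, ?_⟩
  · intro i
    refine Fin.cases ?_ (fun i => ?_) i
    · simpa using hg₁
    · simpa using hg₀
  · intro i
    refine Fin.cases ?_ (fun i => ?_) i
    · simp
    · simp
  · intro x
    have hval : ∀ y : B 1, (∑ i : Fin (k + 1), (Fin.cons 3 (fun _ => 1) : Fin (k + 1) → ℝ) i *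
        (Fin.cons g₁ (fun _ => g₀) : Fin (k + 1) → B 2 → ℝ) i
          (fun s => Sum.elim x y ((Fin.cons ![Sum.inr 0, Sum.inl ⟨0, by omega⟩]
            (fun i => ![Sum.inl i, Sum.inr 0]) : Fin (k + 1) → Fin 2 → Fin k ⊕ Fin 1) i s)) + 0) =
        if y 0 = true then 3 else (wt x : ℝ) := by
      intro y
      rw [Fin.sum_univ_succ]
      simp only [Fin.cons_zero, Fin.cons_succ, g₀, g₁]
      rw [wt_sum]
      by_cases hy : y 0 = true
      · simp [hy]
      · simp [hy]
    constructor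
    · by_cases h : wt x ≤ 3
      · refine ⟨fun _ => false, ?_⟩
        simp only [hval]
        simp [F, h]
      · refine ⟨fun _ => true, ?_⟩
        simp only [hval]
        have : min (wt x) 3 = 3 := by omega
        simp [F, this]
    · rintro _ ⟨y, rfl⟩
      simp only [hval]
      unfold F
      split_ifs
      · have : min (wt x) 3 ≤ 3 := min_le_right _ _
        exact_mod_cast this
      · have : min (wt x) 3 ≤ wt x := min_le_left _ _
        exact_mod_cast this

/-- The 0-1 vector of a set of coordinates. -/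
def S {k : ℕ} (s : Finset ℕ) : B k := fun i => decide (i.val ∈ s)

theorem S_inf {k : ℕ} (s t : Finset ℕ) : (S s ⊓ S t : B k) = S (s ∩ t) := by
  funext i
  simp only [S, Pi.inf_apply, Finset.mem_inter]
  by_cases h1 : i.val ∈ s <;> by_cases h2 : i.val ∈ t <;> simp [h1, h2]

theorem S_sup {k : ℕ} (s t : Finset ℕ) : (S s ⊔ S t : B k) = S (s ∪ t) := by
  funext i
  simp only [S, Pi.sup_apply, Finset.mem_union]
  by_cases h1 : i.val ∈ s <;> by_cases h2 : i.val ∈ t <;> simp [h1, h2]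

theorem wt_S {k : ℕ} (s : Finset ℕ) (hs : s ⊆ Finset.range k) : wt (S s : B k) = s.card := by
  unfold wt
  have h : (Finset.univ.filter fun i : Fin k => (S s : B k) i = true).map Fin.valEmbedding = s := by
    ext n
    simp only [S, Finset.mem_map, Finset.mem_filter, Finset.mem_univ, true_and,
      decide_eq_true_eq, Fin.valEmbedding_apply]
    constructor
    · rintro ⟨i, hi, rfl⟩
      exact hi
    · intro hn
      exact ⟨⟨n, Finset.mem_range.1 (hs hn)⟩, hn, rfl⟩
  rw [← Finset.card_map Fin.valEmbedding, h]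

theorem S_mono {k : ℕ} (s t : Finset ℕ) (h : s ⊆ t) : (S s : B k) ≤ S t := by
  intro i
  simp only [S]
  by_cases h1 : i.val ∈ s
  · simp [h1, h h1]
  · simp [h1]

/-- A submodular function with values in `{-2,-1,0}` which is antitone or monotone and modular
on all pairs on which `min(|x|,3)` is modular is modular on the pair `012`, `013`. -/
theorem no_kink {k : ℕ} (φ : B k → ℤ) (hr : ∀ x, -2 ≤ φ x ∧ φ x ≤ 0)
    (hmono : (∀ x y, x ≤ y → φ y ≤ φ x) ∨ (∀ x y, x ≤ y → φ x ≤ φ y))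
    (h0 : ∀ s t : Finset ℕ, s ⊆ Finset.range 6 → t ⊆ Finset.range 6 →
      ((s ∪ t).card ≤ 3 ∨ 3 ≤ (s ∩ t).card) →
      φ (S s) + φ (S t) = φ (S (s ∩ t)) + φ (S (s ∪ t)))
    (h1 : φ (S {0, 1}) + φ (S {0, 1, 2, 3}) < φ (S {0, 1, 2}) + φ (S {0, 1, 3})) : False := by
  have e : ∀ s t i u : Finset ℕ, s ⊆ Finset.range 6 → t ⊆ Finset.range 6 →
      (u.card ≤ 3 ∨ 3 ≤ i.card) → s ∩ t = i → s ∪ t = u →
      φ (S s) + φ (S t) = φ (S i) + φ (S u) := by
    rintro s t i u hs ht hc rfl rfl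
    exact h0 s t hs ht hc
  rcases hmono with hm | hm
  · -- antitone
    have a1 := e {0, 1, 2, 3} {0, 1, 3, 4} {0, 1, 3} {0, 1, 2, 3, 4}
      (by decide) (by decide) (by decide) (by decide) (by decide)
    have a2 := e {0, 1, 2, 4} {0, 1, 3, 4} {0, 1, 4} {0, 1, 2, 3, 4}
      (by decide) (by decide) (by decide) (by decide) (by decide)
    have a3 := e {0, 1, 2, 3} {0, 1, 3, 5} {0, 1, 3} {0, 1, 2, 3, 5}
      (by decide) (by decide) (by decide) (by decide) (by decide)
    have a4 := e {0, 1, 2, 5} {0, 1, 3, 5} {0, 1, 5} {0, 1, 2, 3, 5}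
      (by decide) (by decide) (by decide) (by decide) (by decide)
    have a5 := e {0, 1, 2, 3} {0, 1, 2, 4} {0, 1, 2} {0, 1, 2, 3, 4}
      (by decide) (by decide) (by decide) (by decide) (by decide)
    have a6 := e {0, 1, 2, 3} {0, 1, 2, 5} {0, 1, 2} {0, 1, 2, 3, 5}
      (by decide) (by decide) (by decide) (by decide) (by decide)
    have a7 := e {0, 1, 2, 3, 4} {0, 1, 2, 3, 5} {0, 1, 2, 3} {0, 1, 2, 3, 4, 5}
      (by decide) (by decide) (by decide) (by decide) (by decide)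
    have m3 := hm (S {0, 1}) (S {0, 1, 3}) (S_mono _ _ (by decide))
    have m4 := hm (S {0, 1}) (S {0, 1, 4}) (S_mono _ _ (by decide))
    have m5 := hm (S {0, 1}) (S {0, 1, 5}) (S_mono _ _ (by decide))
    have r1 := hr (S {0, 1, 2, 3, 4, 5})
    have r2 := hr (S {0, 1, 2})
    omega
  · -- monotone
    have b1 := e {0, 1} {0, 2} {0} {0, 1, 2}
      (by decide) (by decide) (by decide) (by decide) (by decide)
    have b2 := e {0, 2} {0, 3} {0} {0, 2, 3}
      (by decide) (by decide) (by decide) (by decide) (by decide)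
    have b3 := e {0, 1} {0, 3} {0} {0, 1, 3}
      (by decide) (by decide) (by decide) (by decide) (by decide)
    have b4 := e {0} {1} ∅ {0, 1}
      (by decide) (by decide) (by decide) (by decide) (by decide)
    have b5 := e {0, 1} {1, 2} {1} {0, 1, 2}
      (by decide) (by decide) (by decide) (by decide) (by decide)
    have b6 := e {1, 2} {1, 3} {1} {1, 2, 3}
      (by decide) (by decide) (by decide) (by decide) (by decide)
    have b7 := e {0, 1} {1, 3} {1} {0, 1, 3}
      (by decide) (by decide) (by decide) (by decide) (by decide)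
    have m1 := hm (S {0, 1, 3}) (S {0, 1, 2, 3}) (S_mono _ _ (by decide))
    have m2 := hm (S {0, 2, 3}) (S {0, 1, 2, 3}) (S_mono _ _ (by decide))
    have m3 := hm (S {1, 2, 3}) (S {0, 1, 2, 3}) (S_mono _ _ (by decide))
    have r1 := hr (S ∅)
    have r2 := hr (S {0, 1, 2})
    omega

/-- **For every `k ≥ 6` the conjectured equality fails**: the function `min(|x|,3)` on `{0,1}^k`
is submodular and expressible by binary submodular functions, but it is not in the cone of
fans. -/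
theorem result (k : ℕ) (hk : 6 ≤ k) :
    ∃ f : B k → ℝ, Submodular f ∧ Expressible f ∧ ¬ InConeFans f := by
  refine ⟨F, F_submod, F_expressible hk, ?_⟩
  rintro ⟨m, φ, α, κ, hφ, hα, hF⟩
  have hsub : ∀ i u v, φ i (u ⊓ v) + φ i (u ⊔ v) ≤ φ i u + φ i v := by
    intro i u v
    rcases hφ i with ⟨A, hA, h⟩ | ⟨A, hA, h⟩
    · rw [h]
      exact upper_submod A hA u v
    · rw [h]
      exact lower_submod A hA u v
  have hdef : ∀ u v, F u + F v - F (u ⊓ v) - F (u ⊔ v) =
      ∑ i, α i * ((φ i u + φ i v - φ i (u ⊓ v) - φ i (u ⊔ v) : ℤ) : ℝ) := by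
    intro u v
    rw [hF u, hF v, hF (u ⊓ v), hF (u ⊔ v)]
    have : ∑ i, α i * ((φ i u + φ i v - φ i (u ⊓ v) - φ i (u ⊔ v) : ℤ) : ℝ) =
        ∑ i, α i * (φ i u : ℝ) + ∑ i, α i * (φ i v : ℝ) - ∑ i, α i * (φ i (u ⊓ v) : ℝ) -
          ∑ i, α i * (φ i (u ⊔ v) : ℝ) := by
      rw [← Finset.sum_add_distrib, ← Finset.sum_sub_distrib, ← Finset.sum_sub_distrib]
      refine Finset.sum_congr rfl fun i _ => ?_
      push_cast
      ring
    rw [this]
    ring
  have hnn : ∀ u v i, 0 ≤ α i * ((φ i u + φ i v - φ i (u ⊓ v) - φ i (u ⊔ v) : ℤ) : ℝ) := by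
    intro u v i
    have := hsub i u v
    have h2 : (0 : ℝ) ≤ ((φ i u + φ i v - φ i (u ⊓ v) - φ i (u ⊔ v) : ℤ) : ℝ) := by
      exact_mod_cast (by omega : 0 ≤ φ i u + φ i v - φ i (u ⊓ v) - φ i (u ⊔ v))
    exact mul_nonneg (hα i) h2
  have hrange : ∀ s : Finset ℕ, s ⊆ Finset.range 6 → s ⊆ Finset.range k := fun s hs =>
    hs.trans (Finset.range_subset_range.2 hk)
  have hFS : ∀ s : Finset ℕ, s ⊆ Finset.range 6 → F (S s : B k) = ((min s.card 3 : ℕ) : ℝ) := by
    intro s hs
    unfold F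
    rw [wt_S s (hrange s hs)]
  -- some fan with positive coefficient has a kink
  obtain ⟨i, hi⟩ : ∃ i, 0 < α i * ((φ i (S {0, 1, 2}) + φ i (S {0, 1, 3}) -
      φ i (S {0, 1, 2} ⊓ S {0, 1, 3}) - φ i (S {0, 1, 2} ⊔ S {0, 1, 3}) : ℤ) : ℝ) := by
    by_contra hc
    push Not at hc
    have h1 := hdef (S {0, 1, 2}) (S {0, 1, 3})
    have h2 := Finset.sum_nonpos fun i (_ : i ∈ Finset.univ) => hc i
    rw [← h1, S_inf, S_sup, hFS _ (by decide), hFS _ (by decide), hFS _ (by decide),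
      hFS _ (by decide)] at h2
    have e1 : (({0, 1, 2} : Finset ℕ)).card = 3 := by decide
    have e2 : (({0, 1, 3} : Finset ℕ)).card = 3 := by decide
    have e3 : (({0, 1, 2} : Finset ℕ) ∩ {0, 1, 3}).card = 2 := by decide
    have e4 : (({0, 1, 2} : Finset ℕ) ∪ {0, 1, 3}).card = 4 := by decide
    rw [e1, e2, e3, e4] at h2
    norm_num at h2
  have hαi : 0 < α i := by
    rcases (hα i).lt_or_eq with h | h
    · exact h
    · rw [← h, zero_mul] at hi
      exact absurd hi (lt_irrefl _)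
  refine no_kink (φ i) ?_ ?_ ?_ ?_
  · intro x
    rcases hφ i with ⟨A, hA, h⟩ | ⟨A, hA, h⟩
    · rw [h]
      exact upper_range A x
    · rw [h]
      exact lower_range A x
  · rcases hφ i with ⟨A, hA, h⟩ | ⟨A, hA, h⟩
    · left
      intro x y hxy
      rw [h]
      exact upper_antitone A x y hxy
    · right
      intro x y hxy
      rw [h]
      exact lower_monotone A x y hxy
  · intro s t hs ht hc
    have h1 := hdef (S s) (S t)
    have hst : s ∩ t ⊆ Finset.range 6 := Finset.inter_subset_left.trans hs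
    have hst' : s ∪ t ⊆ Finset.range 6 := Finset.union_subset hs ht
    have hcard := Finset.card_inter_add_card_union s t
    have hle := Finset.card_le_card (Finset.inter_subset_left : s ∩ t ⊆ s)
    have hle' := Finset.card_le_card (Finset.inter_subset_right : s ∩ t ⊆ t)
    have hle2 := Finset.card_le_card (Finset.subset_union_left : s ⊆ s ∪ t)
    have hle2' := Finset.card_le_card (Finset.subset_union_right : t ⊆ s ∪ t)
    have h2 : F (S s : B k) + F (S t : B k) - F (S s ⊓ S t : B k) - F (S s ⊔ S t : B k) = 0 := by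
      rw [S_inf, S_sup, hFS _ hs, hFS _ ht, hFS _ hst, hFS _ hst']
      have : min s.card 3 + min t.card 3 = min (s ∩ t).card 3 + min (s ∪ t).card 3 := by omega
      have h3 : ((min s.card 3 : ℕ) : ℝ) + ((min t.card 3 : ℕ) : ℝ) =
          ((min (s ∩ t).card 3 : ℕ) : ℝ) + ((min (s ∪ t).card 3 : ℕ) : ℝ) := by
        exact_mod_cast this
      linarith
    rw [h2] at h1
    have h3 := (Finset.sum_eq_zero_iff_of_nonneg fun i _ => hnn (S s) (S t) i).1 h1.symm i
      (Finset.mem_univ i)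
    rcases mul_eq_zero.1 h3 with h4 | h4
    · exact absurd h4 hαi.ne'
    · rw [S_inf, S_sup] at h4
      have h5 : (φ i (S s) + φ i (S t) - φ i (S (s ∩ t)) - φ i (S (s ∪ t)) : ℤ) = 0 := by
        exact_mod_cast h4
      omega
  · have h1 : 0 < ((φ i (S {0, 1, 2}) + φ i (S {0, 1, 3}) -
        φ i (S {0, 1, 2} ⊓ S {0, 1, 3}) - φ i (S {0, 1, 2} ⊔ S {0, 1, 3}) : ℤ) : ℝ) :=
      pos_of_mul_pos_right hi hαi.le
    have h2 : 0 < φ i (S {0, 1, 2}) + φ i (S {0, 1, 3}) -
        φ i (S {0, 1, 2} ⊓ S {0, 1, 3}) - φ i (S {0, 1, 2} ⊔ S {0, 1, 3}) := by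
      exact_mod_cast h1
    rw [S_inf, S_sup] at h2
    have e3 : (({0, 1, 2} : Finset ℕ) ∩ {0, 1, 3}) = {0, 1} := by decide
    have e4 : (({0, 1, 2} : Finset ℕ) ∪ {0, 1, 3}) = {0, 1, 2, 3} := by decide
    rw [e3, e4] at h2
    omega

end Pool.Agent.Results.MP_09575c_lc.FansFail
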